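import Pool.Agent.Q294.Ce.Lyap2

/-! The parameters `μ` and `θ` of the environment. -/

set_option autoImplicit false

namespace Pool.Agent.Q294.Ce

open MeasureTheory ProbabilityTheory Filter Topology
open _root_.Q294.Cookie (suc fai suc_add_fai fai_succ fai_zero suc_zero)

noncomputable section

/-- at the `k`-th failure there are exactly `k` failures -/
lemma fai_NN {f : ℕ → Bool} {k : ℕ} (h : ∃ j, k ≤ fai f j) : fai f (NN k f) = k := by
  have h1 : k ≤ fai f (NN k f) := Nat.sInf_mem h
  refine le_antisymm ?_ h1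
  rcases Nat.eq_zero_or_pos (NN k f) with h0 | h0
  · rw [h0, fai_zero]
    exact Nat.zero_le _
  · have h2 : ¬ k ≤ fai f (NN k f - 1) := by
      intro h3
      have h4 : NN k f ≤ NN k f - 1 := Nat.sInf_le h3
      omega
    have h3 := fai_succ f (NN k f - 1)
    rw [Nat.sub_add_cancel h0] at h3
    rw [h3]
    split_ifs <;> omega

/-- `VV` is the number of successes before the `k`-th failure -/
lemma VV_eq_suc (f : ℕ → Bool) (k : ℕ) : VV k f = suc f (NN k f) := by
  unfold VV
  by_cases h : ∃ j, k ≤ fai f j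
  · have h1 := fai_NN h
    have h2 := suc_add_fai f (NN k f)
    omega
  · have h1 : NN k f = 0 := by
      unfold NN
      have : {j | k ≤ fai f j} = ∅ := by
        ext j
        simp only [Set.mem_ofPred_eq, Set.mem_empty_iff_false, iff_false]
        exact fun hj => h ⟨j, hj⟩
      rw [this, Nat.sInf_empty]
    rw [h1, suc_zero, Nat.zero_sub]

lemma tendsto_cc : Tendsto cc atTop (𝓝 0) := by
  have h1 : Tendsto (fun n : ℕ => √(1 + Real.log ((n : ℝ) + 1))) atTop atTop := by
    refine Real.tendsto_sqrt_atTop.comp ?_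
    refine tendsto_atTop_add_const_left _ _ ?_
    refine Real.tendsto_log_atTop.comp ?_
    exact tendsto_atTop_add_const_right _ _ tendsto_natCast_atTop_atTop
  exact h1.const_div_atTop 1

/-- the limits -/
lemma limits (h1 : S_mean) (h2 : S_second) (h4 : S_env) :
    Tendsto (fun x : ℕ => (∫ f, (VV x f : ℝ) ∂(coins pp)) / x) atTop (𝓝 1) ∧
    Tendsto (fun x : ℕ => ∫ f, ((VV x f : ℝ) - x) ∂(coins pp)) atTop (𝓝 1) ∧
    Tendsto (fun x : ℕ => (∫ f, ((VV x f : ℝ) - x) ^ 2 ∂(coins pp)) / x) atTop (𝓝 2) := by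
  obtain ⟨hG, hdr⟩ := h4
  obtain ⟨C, hC, hsec⟩ := h2 pp _ _ hG
  obtain ⟨ha, hmeas, hint, hmean⟩ := h1 pp _ _ hG
  have hdi : ∀ z, Integrable (fun f => dr pp (NN z f)) (coins pp) := by
    intro z
    have hdrm : Measurable (fun f => dr pp (NN z f)) :=
      (Measurable.of_discrete (f := dr pp)).comp (hmeas z)
    apply Integrable.of_bound hdrm.aestronglyMeasurable 3
    refine Eventually.of_forall fun f => ?_
    rw [Real.norm_eq_abs, abs_of_nonneg (hG.dr_nonneg _)]
    exact hG.dr_le _
  have hV : ∀ z, Integrable (fun f => (VV z f : ℝ) - z) (coins pp) := by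
    intro z
    have h5 : Integrable (fun f => (NN z f : ℝ) - 2 * z) (coins pp) :=
      (hint z).sub (integrable_const _)
    apply h5.congr
    filter_upwards [ha] with f hf
    rw [VV_cast hf]
    ring
  have hV' : ∀ z, Integrable (fun f => (VV z f : ℝ)) (coins pp) := by
    intro z
    have := (hV z).add (integrable_const (z : ℝ))
    refine this.congr (Eventually.of_forall fun f => ?_)
    show (VV z f : ℝ) - z + z = VV z f
    ring
  have hρ : Tendsto (fun x : ℕ => ∫ f, ((VV x f : ℝ) - x) ∂(coins pp)) atTop (𝓝 1) := by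
    have h5 : Tendsto (fun x : ℕ => 1 + cc x) atTop (𝓝 1) := by
      have := tendsto_cc.const_add 1
      rwa [add_zero] at this
    refine tendsto_of_tendsto_of_tendsto_of_le_of_le' tendsto_const_nhds h5 ?_ ?_
    · filter_upwards [eventually_ge_atTop 3] with x hx
      rw [hmean]
      have := drift_lower h1 ⟨hG, hdr⟩ x hx
      have := cc_nonneg (6 * x)
      linarith
    · filter_upwards [eventually_ge_atTop 3] with x hx
      rw [hmean]
      have h6 : ∫ f, dr pp (NN x f) ∂(coins pp) ≤ ∫ f, (1 + cc x) ∂(coins pp) := by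
        apply integral_mono_ae (hdi x) (integrable_const _)
        filter_upwards [ha] with f hf
        have h7 := le_NN hf x
        show dr pp (NN x f) ≤ 1 + cc x
        rw [hdr (NN x f) (by omega)]
        have := cc_anti h7
        linarith
      simpa using h6
  refine ⟨?_, hρ, ?_⟩
  · have h5 : Tendsto (fun x : ℕ => 1 + (∫ f, ((VV x f : ℝ) - x) ∂(coins pp)) / x) atTop
        (𝓝 (1 + 0)) := (hρ.div_atTop tendsto_natCast_atTop_atTop).const_add 1
    rw [add_zero] at h5
    refine h5.congr' ?_
    filter_upwards [eventually_gt_atTop 0] with x hx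
    have hx0 : (x : ℝ) ≠ 0 := by
      have : (0 : ℝ) < x := by exact_mod_cast hx
      exact this.ne'
    rw [integral_sub (hV' x) (integrable_const _)]
    simp only [integral_const, probReal_univ, smul_eq_mul, one_mul]
    field_simp
    ring
  · rw [tendsto_iff_norm_sub_tendsto_zero]
    have h5 : Tendsto (fun x : ℕ => C / √x + C / x) atTop (𝓝 (0 + 0)) := by
      refine Tendsto.add ?_ ?_
      · exact (Real.tendsto_sqrt_atTop.comp tendsto_natCast_atTop_atTop).const_div_atTop C
      · exact tendsto_natCast_atTop_atTop.const_div_atTop C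
    rw [add_zero] at h5
    refine squeeze_zero' (Eventually.of_forall fun x => norm_nonneg _) ?_ h5
    filter_upwards [eventually_gt_atTop 0] with x hx
    have hx0 : (0 : ℝ) < x := by exact_mod_cast hx
    have hs0 : 0 < √(x : ℝ) := Real.sqrt_pos.2 hx0
    have h6 := (hsec x).2
    rw [Real.norm_eq_abs]
    have h7 : (∫ f, ((VV x f : ℝ) - x) ^ 2 ∂(coins pp)) / x - 2 =
        (∫ f, ((VV x f : ℝ) - x) ^ 2 ∂(coins pp) - 2 * x) / x := by
      field_simp
    rw [h7, abs_div, abs_of_pos hx0, div_le_iff₀ hx0]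
    refine h6.trans (le_of_eq ?_)
    have h8 : (x : ℝ) = √x * √x := (Real.mul_self_sqrt hx0.le).symm
    have h9 : (C / √(x : ℝ) + C / x) * x = C * (x / √x) + C * (x / x) := by ring
    rw [h9, div_self hx0.ne']
    have h10 : (x : ℝ) / √x = √x := by
      rw [div_eq_iff hs0.ne']
      exact h8
    rw [h10, mul_one]

end

end Pool.Agent.Q294.Ce
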