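import Pool.Agent.Q294.Ce.Walk

/-! The Lyapunov function `1 / log`. -/

set_option autoImplicit false

namespace Pool.Agent.Q294.Ce

open MeasureTheory ProbabilityTheory Filter Topology
open _root_.Q294.Cookie (suc fai)

noncomputable section

lemma log_lower_pos {u : ℝ} (hu : 0 ≤ u) : u - u ^ 2 / 2 ≤ Real.log (1 + u) := by
  have h := Real.le_log_one_add_of_nonneg hu
  refine le_trans ?_ h
  rw [le_div_iff₀ (by linarith)]
  nlinarith [mul_nonneg hu hu, mul_nonneg (mul_nonneg hu hu) hu]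

lemma log_lower_neg {u : ℝ} (hu0 : u ≤ 0) (hu : -(1 / 2) ≤ u) :
    u - u ^ 2 / 2 - 2 * (-u) ^ 3 ≤ Real.log (1 + u) := by
  have h := Real.abs_log_sub_add_sum_range_le (x := -u) (by rw [abs_neg, abs_of_nonpos hu0]; linarith) 2
  have h3 : ∑ i ∈ Finset.range 2, (-u) ^ (i + 1) / ((i : ℝ) + 1) = -u + u ^ 2 / 2 := by
    simp [Finset.sum_range_succ]
    norm_num
  rw [h3, abs_neg, sub_neg_eq_add, abs_of_nonpos hu0] at h
  have h4 : (-u) ^ (2 + 1) / (1 - -u) ≤ 2 * (-u) ^ 3 := by
    rw [div_le_iff₀ (by linarith)]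
    have : 0 ≤ (-u) ^ 3 := by
      have : 0 ≤ -u := by linarith
      positivity
    have e : (-u) ^ (2 + 1) = (-u) ^ 3 := by norm_num
    rw [e]
    nlinarith
  have h12 := abs_le.1 h
  linarith [h12.1]

lemma log_sq_le {u : ℝ} (hu : -(1 / 2) ≤ u) : Real.log (1 + u) ^ 2 ≤ 4 * u ^ 2 := by
  rcases le_total 0 u with h | h
  · have h1 : Real.log (1 + u) ≤ u := by
      have := Real.log_le_sub_one_of_pos (show 0 < 1 + u by linarith)
      linarith
    have h2 : 0 ≤ Real.log (1 + u) := Real.log_nonneg (by linarith)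
    nlinarith
  · have h1 : Real.log (1 + u) ≤ u := by
      have := Real.log_le_sub_one_of_pos (show 0 < 1 + u by linarith)
      linarith
    have h2 := log_lower_neg h hu
    have h3 : (-u) ^ 3 ≤ (1 / 4) * (-u) := by
      have h4 : 0 ≤ -u := by linarith
      have h5 : (-u) ^ 2 ≤ 1 / 4 := by nlinarith
      calc (-u) ^ 3 = (-u) ^ 2 * (-u) := by ring
        _ ≤ 1 / 4 * (-u) := mul_le_mul_of_nonneg_right h5 h4
    have h4 : u ^ 2 ≤ (1 / 2) * (-u) := by nlinarith
    have h5 : -(2 * (-u)) ≤ Real.log (1 + u) := by linarith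
    nlinarith

/-- the expansion of `1 / log` -/
lemma inv_log_le {L w u η : ℝ} (hL : 2 * Real.log 2 ≤ L) (hu : -(1 / 2) ≤ u) (hη0 : 0 ≤ η)
    (hw : w = Real.log (1 + u)) :
    1 / (L + w) ≤ 1 / L - u / L ^ 2 + (1 / 2 + 2 * η) * u ^ 2 / L ^ 2 + 8 * u ^ 2 / L ^ 3 +
      (if u < -η then 2 / L ^ 2 else 0) := by
  have h2 : 0 < Real.log 2 := Real.log_pos (by norm_num)
  have hL0 : 0 < L := by linarith
  have hw1 : -(Real.log 2) ≤ w := by
    rw [hw, ← Real.log_inv]
    exact Real.log_le_log (by norm_num) (by linarith)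
  have hLw : L / 2 ≤ L + w := by linarith
  have hLw0 : 0 < L + w := by linarith
  have e1 : 1 / (L + w) = 1 / L - w / L ^ 2 + w ^ 2 / (L ^ 2 * (L + w)) := by
    field_simp
    ring
  have h3 : w ^ 2 / (L ^ 2 * (L + w)) ≤ 8 * u ^ 2 / L ^ 3 := by
    have h4 := log_sq_le hu
    rw [← hw] at h4
    calc w ^ 2 / (L ^ 2 * (L + w)) ≤ 4 * u ^ 2 / (L ^ 2 * (L / 2)) := by
          gcongr
      _ = 8 * u ^ 2 / L ^ 3 := by
          field_simp
          ring
  have h5 : -w / L ^ 2 ≤ -u / L ^ 2 + (1 / 2 + 2 * η) * u ^ 2 / L ^ 2 +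
      (if u < -η then 2 / L ^ 2 else 0) := by
    have hL2 : 0 < L ^ 2 := by positivity
    rcases le_total 0 u with h | h
    · have h6 := log_lower_pos h
      rw [← hw] at h6
      rw [if_neg (by linarith), add_zero, ← add_div]
      apply div_le_div_of_nonneg_right _ hL2.le
      nlinarith [mul_nonneg hη0 (sq_nonneg u)]
    · have h6 := log_lower_neg h hu
      rw [← hw] at h6
      by_cases h7 : u < -η
      · rw [if_pos h7, ← add_div, ← add_div]
        apply div_le_div_of_nonneg_right _ hL2.le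
        have h8 : (-u) ^ 3 ≤ 1 := pow_le_one₀ (by linarith) (by linarith)
        nlinarith [mul_nonneg hη0 (sq_nonneg u)]
      · rw [if_neg h7, add_zero, ← add_div]
        apply div_le_div_of_nonneg_right _ hL2.le
        push Not at h7
        have h8 : (-u) ^ 3 ≤ η * u ^ 2 := by
          have : (-u) ^ 3 = (-u) * u ^ 2 := by ring
          rw [this]
          apply mul_le_mul_of_nonneg_right _ (sq_nonneg u)
          linarith
        linarith
  rw [e1]
  have e2 : 1 / L - w / L ^ 2 = 1 / L + -w / L ^ 2 := by ring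
  have e3 : 1 / L - u / L ^ 2 = 1 / L + -u / L ^ 2 := by ring
  rw [e2, e3]
  linarith

/-- the pointwise bound for the Lyapunov function -/
lemma FF_le {x z v : ℕ} {η : ℝ} (hx : 3 ≤ x) (hz : x < z) (hη0 : 0 ≤ η) (hη : η ≤ 1 / 2) :
    FF x v ≤ 1 / Real.log z - ((v : ℝ) - z) / (z * Real.log z ^ 2) +
      ((1 / 2 + 2 * η) / Real.log z ^ 2 + 8 / Real.log z ^ 3) * (((v : ℝ) - z) ^ 2 / z ^ 2) +
      (if ((v : ℝ) - z) / z < -η then 2 else 0) := by
  obtain ⟨u, hu⟩ : ∃ u : ℝ, u = ((v : ℝ) - z) / z := ⟨_, rfl⟩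
  obtain ⟨L, hL⟩ : ∃ L : ℝ, L = Real.log z := ⟨_, rfl⟩
  have hz4 : (4 : ℝ) ≤ z := by
    have : 4 ≤ z := by omega
    exact_mod_cast this
  have hz0 : (0 : ℝ) < z := by linarith
  have h2L : 2 * Real.log 2 ≤ L := by
    have h1 : 2 * Real.log 2 = Real.log 4 := by
      rw [show (4 : ℝ) = 2 ^ 2 by norm_num, Real.log_pow]
      norm_num
    rw [h1, hL]
    exact Real.log_le_log (by norm_num) hz4
  have hlog3 : 1 ≤ Real.log 3 := by
    rw [Real.le_log_iff_exp_le (by norm_num)]
    have := Real.exp_one_lt_d9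
    linarith
  have hL1 : 1 ≤ L := by
    rw [hL]
    refine hlog3.trans (Real.log_le_log (by norm_num) (by linarith))
  have e1 : ((v : ℝ) - z) / (z * Real.log z ^ 2) = u / L ^ 2 := by
    rw [hu, hL]
    field_simp
  have e2 : ((v : ℝ) - z) ^ 2 / z ^ 2 = u ^ 2 := by
    rw [hu, div_pow]
  have e3 : ((v : ℝ) - z) / z = u := hu.symm
  rw [e1, e2, e3, ← hL]
  have hFF1 : FF x v ≤ 1 := by
    unfold FF
    have h1 : (3 : ℝ) ≤ ((max v x : ℕ) : ℝ) := by
      have : 3 ≤ max v x := le_max_of_le_right hx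
      exact_mod_cast this
    have h2 := Real.log_le_log (by norm_num) h1
    rw [div_le_one (by linarith)]
    linarith
  by_cases hcase : u < -(1 / 2)
  · rw [if_pos (by linarith)]
    have h1 : 0 ≤ -(u / L ^ 2) := by
      rw [← neg_div]
      apply div_nonneg (by linarith) (by positivity)
    have h2 : 0 ≤ ((1 / 2 + 2 * η) / L ^ 2 + 8 / L ^ 3) * u ^ 2 := by positivity
    have h3 : 0 ≤ 1 / L := by positivity
    linarith
  · push Not at hcase
    have hv : (z : ℝ) / 2 ≤ v := by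
      rw [hu] at hcase
      rw [le_div_iff₀ hz0] at hcase
      linarith
    have hv0 : (0 : ℝ) < v := by linarith
    have hw : Real.log v = L + Real.log (1 + u) := by
      rw [hL, ← Real.log_mul hz0.ne' (by linarith)]
      congr 1
      rw [hu]
      field_simp
      ring
    have h1 := inv_log_le h2L hcase hη0 rfl
    rw [← hw] at h1
    have h2 : FF x v ≤ 1 / Real.log v := by
      unfold FF
      apply one_div_le_one_div_of_le
      · rw [hw]
        have h3 : -(Real.log 2) ≤ Real.log (1 + u) := by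
          rw [← Real.log_inv]
          exact Real.log_le_log (by norm_num) (by linarith)
        have := Real.log_pos (show (1 : ℝ) < 2 by norm_num)
        linarith
      · apply Real.log_le_log hv0
        exact_mod_cast le_max_left v x
    refine h2.trans (h1.trans ?_)
    have h3 : (if u < -η then 2 / L ^ 2 else 0 : ℝ) ≤ if u < -η then 2 else 0 := by
      split_ifs
      · rw [div_le_iff₀ (by positivity)]
        have : 1 ≤ L ^ 2 := one_le_pow₀ hL1
        linarith
      · exact le_rfl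
    have e4 : ((1 / 2 + 2 * η) / L ^ 2 + 8 / L ^ 3) * u ^ 2 =
        (1 / 2 + 2 * η) * u ^ 2 / L ^ 2 + 8 * u ^ 2 / L ^ 3 := by ring
    rw [e4]
    linarith

/-! ### Asymptotics -/

/-- the error -/
def err (C : ℝ) (z : ℕ) : ℝ := 4 / √√z + 16 / Real.log z + 21 * C / √z +
  2 * (z * Real.log z ^ 2 * Real.exp (-√z / 4))

lemma tendsto_log : Tendsto (fun z : ℕ => Real.log z) atTop atTop :=
  Real.tendsto_log_atTop.comp tendsto_natCast_atTop_atTop

lemma log_pow_div (k : ℕ) {r : ℝ} (hr : 0 < r) :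
    Tendsto (fun z : ℕ => Real.log z ^ k / (z : ℝ) ^ r) atTop (𝓝 0) := by
  have h2 : Tendsto (fun y : ℝ => Real.log y ^ k / y ^ r) atTop (𝓝 0) := by
    rcases Nat.eq_zero_or_pos k with rfl | hk
    · simp only [pow_zero]
      exact (tendsto_rpow_atTop hr).const_div_atTop 1
    · have h3 := (isLittleO_log_rpow_atTop (r := r / k) (by positivity)).pow hk
      have h4 : (fun y : ℝ => (y ^ (r / k)) ^ k) =ᶠ[atTop] fun y : ℝ => y ^ r := by
        filter_upwards [eventually_gt_atTop 0] with y hy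
        rw [← Real.rpow_natCast, ← Real.rpow_mul hy.le]
        congr 1
        field_simp
      exact (h3.trans_eventuallyEq h4).tendsto_div_nhds_zero
  exact h2.comp tendsto_natCast_atTop_atTop

lemma err_small {C : ℝ} (hC : 0 ≤ C) : ∀ᶠ z : ℕ in atTop, err C z ≤ cc (6 * z) / 2 := by
  have h1 : Tendsto (fun z : ℕ => 8 * (Real.log z ^ 1 / (z : ℝ) ^ (1 / 4 : ℝ)) +
      32 * (1 / √(Real.log z)) + 42 * C * (Real.log z ^ 1 / (z : ℝ) ^ (1 / 2 : ℝ)) +
      24576 * (Real.log z ^ 3 / (z : ℝ) ^ (1 : ℝ))) atTop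
      (𝓝 (8 * 0 + 32 * 0 + 42 * C * 0 + 24576 * 0)) := by
    refine (((log_pow_div 1 (by norm_num)).const_mul 8).add (Tendsto.const_mul 32 ?_)).add
      ((log_pow_div 1 (by norm_num)).const_mul (42 * C)) |>.add
      ((log_pow_div 3 (by norm_num)).const_mul 24576)
    have h2 : Tendsto (fun z : ℕ => √(Real.log z)) atTop atTop :=
      Real.tendsto_sqrt_atTop.comp tendsto_log
    exact h2.const_div_atTop 1
  have e0 : 8 * 0 + 32 * 0 + 42 * C * 0 + 24576 * 0 = (0 : ℝ) := by ring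
  rw [e0] at h1
  filter_upwards [h1.eventually (gt_mem_nhds (show (0 : ℝ) < 1 / 2 by norm_num)),
    tendsto_log.eventually (eventually_ge_atTop 3), eventually_ge_atTop 7] with z hz hL hz7
  have hz0 : (7 : ℝ) ≤ z := by exact_mod_cast hz7
  obtain ⟨L, hLd⟩ : ∃ L : ℝ, L = Real.log z := ⟨_, rfl⟩
  rw [← hLd] at hz hL
  obtain ⟨R, hR⟩ : ∃ R : ℝ, R = √(1 + Real.log (((6 * z : ℕ) : ℝ) + 1)) := ⟨_, rfl⟩
  have hlog7 : Real.log 7 ≤ 2 := by
    rw [Real.log_le_iff_le_exp (by norm_num)]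
    have h2 : Real.exp 2 = Real.exp 1 ^ 2 := by
      rw [← Real.exp_nat_mul]
      norm_num
    rw [h2]
    have := Real.exp_one_gt_d9
    nlinarith
  have hR1 : 1 + Real.log (((6 * z : ℕ) : ℝ) + 1) ≤ 4 * L := by
    have h2 : Real.log (((6 * z : ℕ) : ℝ) + 1) ≤ Real.log (7 * z) := by
      apply Real.log_le_log (by positivity)
      push_cast
      linarith
    rw [Real.log_mul (by norm_num) (by linarith), ← hLd] at h2
    linarith
  have hR0 : 0 < 1 + Real.log (((6 * z : ℕ) : ℝ) + 1) := by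
    have := Real.log_nonneg (show (1 : ℝ) ≤ ((6 * z : ℕ) : ℝ) + 1 by
      have : (0 : ℝ) ≤ ((6 * z : ℕ) : ℝ) := Nat.cast_nonneg _
      linarith)
    linarith
  have hRpos : 0 < R := by
    rw [hR]
    exact Real.sqrt_pos.2 hR0
  have hRs : R ≤ 2 * √L := by
    rw [hR]
    have h3 : (2 : ℝ) * √L = √(4 * L) := by
      rw [Real.sqrt_mul (by norm_num), show (4 : ℝ) = 2 ^ 2 by norm_num, Real.sqrt_sq (by norm_num)]
    rw [h3]
    exact Real.sqrt_le_sqrt hR1
  have hsL : √L ≤ L := by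
    rw [Real.sqrt_le_left (by linarith)]
    nlinarith
  have hRL : R ≤ 2 * L := by linarith
  have hcc : cc (6 * z) = 1 / R := by
    rw [hR]
    rfl
  rw [hcc]
  have hkey : R * err C z ≤ 1 / 2 := by
    refine le_trans ?_ hz.le
    unfold err
    rw [← hLd]
    have a1 : R * (4 / √√z) ≤ 8 * (L ^ 1 / (z : ℝ) ^ (1 / 4 : ℝ)) := by
      have e : (z : ℝ) ^ (1 / 4 : ℝ) = √√z := by
        rw [Real.sqrt_eq_rpow, Real.sqrt_eq_rpow, ← Real.rpow_mul (by linarith)]
        norm_num
      rw [e, pow_one]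
      have h3 : 0 < √√(z : ℝ) := Real.sqrt_pos.2 (Real.sqrt_pos.2 (by linarith))
      calc R * (4 / √√z) ≤ 2 * L * (4 / √√z) := mul_le_mul_of_nonneg_right hRL (by positivity)
        _ = 8 * (L / √√z) := by ring
    have a2 : R * (16 / L) ≤ 32 * (1 / √L) := by
      have h3 : 0 < √L := Real.sqrt_pos.2 (by linarith)
      have h4 : √L * √L = L := Real.mul_self_sqrt (by linarith)
      calc R * (16 / L) ≤ 2 * √L * (16 / L) := mul_le_mul_of_nonneg_right hRs (by positivity)
        _ = 2 * √L * (16 / (√L * √L)) := by rw [h4]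
        _ = 32 * (1 / √L) := by
            field_simp
            ring
    have a3 : R * (21 * C / √z) ≤ 42 * C * (L ^ 1 / (z : ℝ) ^ (1 / 2 : ℝ)) := by
      rw [← Real.sqrt_eq_rpow, pow_one]
      have h3 : 0 < √(z : ℝ) := Real.sqrt_pos.2 (by linarith)
      calc R * (21 * C / √z) ≤ 2 * L * (21 * C / √z) := mul_le_mul_of_nonneg_right hRL (by positivity)
        _ = _ := by ring
    have a4 : R * (2 * (z * L ^ 2 * Real.exp (-√z / 4))) ≤ 24576 * (L ^ 3 / (z : ℝ) ^ (1 : ℝ)) := by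
      rw [Real.rpow_one]
      have h3 : (√(z : ℝ) / 4) ^ 4 / (Nat.factorial 4 : ℝ) ≤ Real.exp (√z / 4) :=
        Real.pow_div_factorial_le_exp _ (by positivity) 4
      have h4 : (√(z : ℝ) / 4) ^ 4 / (Nat.factorial 4 : ℝ) = (z : ℝ) ^ 2 / 6144 := by
        have h5 : √(z : ℝ) ^ 4 = (z : ℝ) ^ 2 := by
          rw [show 4 = 2 * 2 by norm_num, pow_mul, Real.sq_sqrt (by linarith)]
        rw [div_pow, h5]
        norm_num [Nat.factorial]
        ring
      rw [h4] at h3
      have h5 : Real.exp (-√z / 4) ≤ 6144 / (z : ℝ) ^ 2 := by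
        rw [neg_div, Real.exp_neg, inv_le_comm₀ (Real.exp_pos _) (by positivity), inv_div]
        exact h3
      calc R * (2 * (z * L ^ 2 * Real.exp (-√z / 4))) ≤
            2 * L * (2 * (z * L ^ 2 * (6144 / (z : ℝ) ^ 2))) := by gcongr
        _ = 24576 * (L ^ 3 / z) := by
            field_simp
            ring
    calc _ = R * (4 / √√z) + R * (16 / L) + R * (21 * C / √z) +
          R * (2 * (z * L ^ 2 * Real.exp (-√z / 4))) := by ring
      _ ≤ _ := by linarith
  rw [div_div, le_div_iff₀ (by positivity)]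
  linarith

end

end Pool.Agent.Q294.Ce
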