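import Pool.Agent.Q294.Ce.Lyap

/-! The Lyapunov inequality. -/

set_option autoImplicit false

namespace Pool.Agent.Q294.Ce

open MeasureTheory ProbabilityTheory Filter Topology
open _root_.Q294.Cookie (suc fai suc_add_fai)

noncomputable section

/-- good coin sequences -/
def GG : Set (ℕ → Bool) := {f | ∀ m, ∃ j, m ≤ fai f j}

lemma fai_le (f : ℕ → Bool) (j : ℕ) : fai f j ≤ j := by
  have := suc_add_fai f j
  omega

lemma le_NN {f : ℕ → Bool} (hf : f ∈ GG) (k : ℕ) : k ≤ NN k f := by
  have h : k ≤ fai f (NN k f) := Nat.sInf_mem (hf k)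
  exact h.trans (fai_le f _)

lemma VV_cast {f : ℕ → Bool} (hf : f ∈ GG) (k : ℕ) : (VV k f : ℝ) = NN k f - k := by
  unfold VV
  rw [Nat.cast_sub (le_NN hf k)]

lemma cc_nonneg (n : ℕ) : 0 ≤ cc n := by
  unfold cc
  positivity

lemma cc_anti {m n : ℕ} (h : m ≤ n) : cc n ≤ cc m := by
  unfold cc
  have h1 : 0 ≤ Real.log ((m : ℝ) + 1) := Real.log_nonneg (by
    have : (0 : ℝ) ≤ m := Nat.cast_nonneg m
    linarith)
  apply one_div_le_one_div_of_le (Real.sqrt_pos.2 (by linarith))
  apply Real.sqrt_le_sqrt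
  have : Real.log ((m : ℝ) + 1) ≤ Real.log ((n : ℝ) + 1) := by
    apply Real.log_le_log (by positivity)
    have : (m : ℝ) ≤ n := by exact_mod_cast h
    linarith
  linarith

lemma measurable_VV (hm : ∀ k, Measurable (NN k)) (k : ℕ) : Measurable (VV k) :=
  (Measurable.of_discrete (f := fun n : ℕ => n - k)).comp (hm k)

/-- the lower bound for the total drift -/
lemma drift_lower (h1 : S_mean) (h4 : S_env) (z : ℕ) (hz : 3 ≤ z) :
    1 + cc (6 * z) / 2 ≤ ∫ f, dr pp (NN z f) ∂(coins pp) := by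
  obtain ⟨hG, hdr⟩ := h4
  obtain ⟨ha, hmeas, hint, hmean⟩ := h1 pp _ _ hG
  have hdrm : Measurable (fun f => dr pp (NN z f)) :=
    (Measurable.of_discrete (f := dr pp)).comp (hmeas z)
  have hdi : Integrable (fun f => dr pp (NN z f)) (coins pp) := by
    apply Integrable.of_bound hdrm.aestronglyMeasurable 3
    refine Eventually.of_forall fun f => ?_
    rw [Real.norm_eq_abs, abs_of_nonneg (hG.dr_nonneg _)]
    exact hG.dr_le _
  -- the mean of `NN z`
  have hN : ∫ f, (NN z f : ℝ) ∂(coins pp) ≤ 3 * z := by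
    have e : ∫ f, ((VV z f : ℝ) - z) ∂(coins pp) = ∫ f, ((NN z f : ℝ) - 2 * z) ∂(coins pp) := by
      apply integral_congr_ae
      filter_upwards [ha] with f hf
      show (VV z f : ℝ) - z = NN z f - 2 * z
      rw [VV_cast hf]
      ring
    have h2 : ∫ f, dr pp (NN z f) ∂(coins pp) ≤ 3 := by
      have := integral_mono hdi (integrable_const (3 : ℝ)) (fun f => hG.dr_le (NN z f))
      simpa using this
    rw [← hmean, e, integral_sub (hint z) (integrable_const _)] at h2
    simp only [integral_const, probReal_univ, smul_eq_mul, one_mul] at h2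
    have : (3 : ℝ) ≤ z := by exact_mod_cast hz
    linarith
  -- Markov
  have hM : (coins pp).real {f | 6 * z ≤ NN z f} ≤ 1 / 2 := by
    have h2 := mul_meas_ge_le_integral_of_nonneg (μ := coins pp) (f := fun f => (NN z f : ℝ))
      (Eventually.of_forall fun f => Nat.cast_nonneg _) (hint z) (6 * z)
    have h3 : {f | (6 : ℝ) * z ≤ (NN z f : ℝ)} = {f | 6 * z ≤ NN z f} := by
      ext f
      constructor
      · intro h
        have h' : (6 : ℝ) * z ≤ (NN z f : ℝ) := h
        exact_mod_cast h'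
      · intro h
        have h' : 6 * z ≤ NN z f := h
        exact_mod_cast h'
    rw [h3] at h2
    have hz0 : (0 : ℝ) < z := by
      have : (3 : ℝ) ≤ z := by exact_mod_cast hz
      linarith
    have h5 : 6 * (z : ℝ) * (coins pp).real {f | 6 * z ≤ NN z f} ≤ 3 * z := h2.trans hN
    by_contra hcon
    push Not at hcon
    nlinarith
  have hlow : ∫ f, (1 + cc (6 * z) * Set.indicator {f | 6 * z ≤ NN z f}ᶜ (fun _ => (1 : ℝ)) f)
      ∂(coins pp) ≤ ∫ f, dr pp (NN z f) ∂(coins pp) := by
    have hms : MeasurableSet {f | 6 * z ≤ NN z f} := hmeas z (measurableSet_Ici)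
    apply integral_mono_ae _ hdi
    · filter_upwards [ha] with f hf
      have h2 := le_NN hf z
      have h3 := hdr (NN z f) (by omega)
      show 1 + cc (6 * z) * Set.indicator {f | 6 * z ≤ NN z f}ᶜ (fun _ => (1 : ℝ)) f ≤ dr pp (NN z f)
      rw [h3]
      by_cases h4 : 6 * z ≤ NN z f
      · rw [Set.indicator_of_notMem (by simpa using h4)]
        have := cc_nonneg (NN z f)
        linarith
      · rw [Set.indicator_of_mem (by simpa using h4)]
        have := cc_anti (show NN z f ≤ 6 * z by omega)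
        linarith
    · apply Integrable.add (integrable_const _)
      apply Integrable.const_mul
      exact (integrable_const (1 : ℝ)).indicator hms.compl
  refine le_trans ?_ hlow
  have hms : MeasurableSet {f | 6 * z ≤ NN z f} := hmeas z (measurableSet_Ici)
  rw [integral_add (integrable_const _) (((integrable_const (1 : ℝ)).indicator hms.compl).const_mul _),
    integral_const_mul, integral_indicator_const _ hms.compl, probReal_compl_eq_one_sub hms]
  simp only [integral_const, probReal_univ, smul_eq_mul, mul_one]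
  have := cc_nonneg (6 * z)
  nlinarith

theorem lyap (h1 : S_mean) (h2 : S_second) (h3 : S_left) (h4 : S_env) : S_lyap := by
  obtain ⟨C, hC, hsec⟩ := h2 pp _ _ h4.1
  obtain ⟨ha, hmeas, hint, hmean⟩ := h1 pp _ _ h4.1
  obtain ⟨x0, hx0⟩ := eventually_atTop.1 (err_small hC)
  refine ⟨max x0 16, by omega, fun z hz => ?_⟩
  have hz16 : 16 < z := lt_of_le_of_lt (le_max_right _ _) hz
  have herr := hx0 z (le_trans (le_max_left _ _) hz.le)
  have hzR : (16 : ℝ) < z := by exact_mod_cast hz16
  have hz0 : (0 : ℝ) < z := by linarith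
  obtain ⟨L, hL⟩ : ∃ L : ℝ, L = Real.log z := ⟨_, rfl⟩
  have hL1 : 1 ≤ L := by
    rw [hL, Real.le_log_iff_exp_le hz0]
    have := Real.exp_one_lt_d9
    linarith
  obtain ⟨s, hs⟩ : ∃ s : ℝ, s = √z := ⟨_, rfl⟩
  have hs4 : 4 ≤ s := by
    rw [hs]
    apply Real.le_sqrt_of_sq_le
    linarith
  have hss : s * s = z := by
    rw [hs]
    exact Real.mul_self_sqrt hz0.le
  obtain ⟨η, hη⟩ : ∃ η : ℝ, η = 1 / √√(z : ℝ) := ⟨_, rfl⟩
  have hq : 2 ≤ √√(z : ℝ) := by
    apply Real.le_sqrt_of_sq_le
    rw [← hs]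
    linarith
  have hη0 : 0 ≤ η := by
    rw [hη]
    positivity
  have hη1 : η ≤ 1 / 2 := by
    rw [hη]
    exact one_div_le_one_div_of_le (by norm_num) hq
  have hη2 : η ^ 2 * s = 1 := by
    rw [hη, div_pow, one_pow, Real.sq_sqrt (Real.sqrt_nonneg _), ← hs]
    field_simp
  have hVm := measurable_VV hmeas z
  have hi1 : Integrable (fun f => (VV z f : ℝ) - z) (coins pp) := by
    have h5 : Integrable (fun f => (NN z f : ℝ) - 2 * z) (coins pp) :=
      (hint z).sub (integrable_const _)
    apply h5.congr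
    filter_upwards [ha] with f hf
    rw [VV_cast hf]
    ring
  obtain ⟨hi2, hsq⟩ := hsec z
  -- the tail
  obtain ⟨T, hT⟩ : ∃ T : Set (ℕ → Bool), T = {f | ((VV z f : ℝ) - z) / z < -η} := ⟨_, rfl⟩
  have hTm : MeasurableSet T := by
    rw [hT]
    have : Measurable (fun f => ((VV z f : ℝ) - z) / z) :=
      ((Measurable.of_discrete (f := fun n : ℕ => (n : ℝ))).comp hVm |>.sub_const _).div_const _
    exact this measurableSet_Iio
  have htail : (coins pp).real T ≤ Real.exp (-s / 4) := by
    have h5 := h3 pp _ _ h4.1 z ⌈η * z⌉₊ (by omega)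
    have h6 : (coins pp).real T ≤ (coins pp).real
        {f | (∀ m, ∃ j, m ≤ fai f j) ∧ VV z f + ⌈η * z⌉₊ ≤ z} := by
      have h7 : (coins pp).real T = (coins pp).real (T ∩ GG) := by
        apply measureReal_congr
        filter_upwards [ha] with f hf
        show (f ∈ T) = (f ∈ T ∩ GG)
        have : f ∈ GG := hf
        simp [this]
      rw [h7]
      apply measureReal_mono _ (measure_ne_top _ _)
      rintro f ⟨hf, hf2⟩
      refine ⟨hf2, ?_⟩
      rw [hT] at hf
      have h8 : ((VV z f : ℝ) - z) / z < -η := hf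
      rw [div_lt_iff₀ hz0] at h8
      have h9 : (VV z f : ℝ) < z := by nlinarith
      have h10 : VV z f < z := by exact_mod_cast h9
      have h11 : ⌈η * z⌉₊ ≤ z - VV z f := by
        apply Nat.ceil_le.2
        rw [Nat.cast_sub h10.le]
        linarith
      omega
    refine h6.trans (h5.trans ?_)
    apply Real.exp_le_exp.2
    have h7 : η * z ≤ (⌈η * z⌉₊ : ℝ) := Nat.le_ceil _
    have h8 : (η * z) ^ 2 ≤ (⌈η * z⌉₊ : ℝ) ^ 2 := pow_le_pow_left₀ (by positivity) h7 2
    have h9 : (η * z) ^ 2 = s * z := by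
      have : (η * z) ^ 2 = (η ^ 2 * s) * (s * z) := by
        rw [← hss]
        ring
      rw [this, hη2, one_mul]
    rw [h9] at h8
    rw [div_le_div_iff₀ (by positivity) (by norm_num)]
    nlinarith
  -- the integral
  have hbd : ∫ f, FF (max x0 16) (VV z f) ∂(coins pp) ≤
      ∫ f, (1 / L - ((VV z f : ℝ) - z) / (z * L ^ 2) +
        ((1 / 2 + 2 * η) / L ^ 2 + 8 / L ^ 3) * (((VV z f : ℝ) - z) ^ 2 / z ^ 2) +
        T.indicator (fun _ => (2 : ℝ)) f) ∂(coins pp) := by
    apply integral_mono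
    · have hFm : Measurable (fun f => FF (max x0 16) (VV z f)) :=
        (Measurable.of_discrete (f := FF (max x0 16))).comp hVm
      apply Integrable.of_bound hFm.aestronglyMeasurable 1
      refine Eventually.of_forall fun f => ?_
      unfold FF
      have h5 : (16 : ℝ) ≤ ((max (VV z f) (max x0 16) : ℕ) : ℝ) := by
        have : 16 ≤ max (VV z f) (max x0 16) := by omega
        exact_mod_cast this
      have h6 : 1 ≤ Real.log ((max (VV z f) (max x0 16) : ℕ) : ℝ) := by
        rw [Real.le_log_iff_exp_le (by linarith)]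
        have := Real.exp_one_lt_d9
        linarith
      rw [Real.norm_eq_abs, abs_of_nonneg (by positivity), div_le_one (by linarith)]
      exact h6
    · exact (((integrable_const _).sub (hi1.div_const _)).add
        ((hi2.div_const _).const_mul _)).add ((integrable_const (2 : ℝ)).indicator hTm)
    · intro f
      have h5 := FF_le (x := max x0 16) (z := z) (v := VV z f) (by omega) hz hη0 hη1
      rw [← hL] at h5
      refine h5.trans (le_of_eq ?_)
      show _ = _ + T.indicator (fun _ => (2 : ℝ)) f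
      congr 1
      by_cases h6 : ((VV z f : ℝ) - z) / z < -η
      · rw [if_pos h6, Set.indicator_of_mem (by rw [hT]; exact h6)]
      · rw [if_neg h6, Set.indicator_of_notMem (by rw [hT]; exact h6)]
  refine hbd.trans ?_
  have hval : ∫ f, (1 / L - ((VV z f : ℝ) - z) / (z * L ^ 2) +
        ((1 / 2 + 2 * η) / L ^ 2 + 8 / L ^ 3) * (((VV z f : ℝ) - z) ^ 2 / z ^ 2) +
        T.indicator (fun _ => (2 : ℝ)) f) ∂(coins pp) =
      1 / L - (∫ f, dr pp (NN z f) ∂(coins pp)) / (z * L ^ 2) +
        ((1 / 2 + 2 * η) / L ^ 2 + 8 / L ^ 3) *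
          ((∫ f, ((VV z f : ℝ) - z) ^ 2 ∂(coins pp)) / z ^ 2) + (coins pp).real T * 2 := by
    have i0 : Integrable (fun _ : ℕ → Bool => 1 / L) (coins pp) := integrable_const _
    have i1 : Integrable (fun f : ℕ → Bool => ((VV z f : ℝ) - z) / (z * L ^ 2)) (coins pp) :=
      hi1.div_const _
    have i2 : Integrable (fun f : ℕ → Bool => ((1 / 2 + 2 * η) / L ^ 2 + 8 / L ^ 3) *
        (((VV z f : ℝ) - z) ^ 2 / z ^ 2)) (coins pp) := (hi2.div_const _).const_mul _
    have i3 : Integrable (T.indicator (fun _ => (2 : ℝ))) (coins pp) :=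
      (integrable_const (2 : ℝ)).indicator hTm
    have i01 : Integrable (fun f : ℕ → Bool => 1 / L - ((VV z f : ℝ) - z) / (z * L ^ 2))
        (coins pp) := i0.sub i1
    have i012 : Integrable (fun f : ℕ → Bool => 1 / L - ((VV z f : ℝ) - z) / (z * L ^ 2) +
        ((1 / 2 + 2 * η) / L ^ 2 + 8 / L ^ 3) * (((VV z f : ℝ) - z) ^ 2 / z ^ 2)) (coins pp) :=
      i01.add i2
    rw [integral_add i012 i3, integral_add i01 i2, integral_sub i0 i1, integral_const_mul,
      integral_div ((z : ℝ) * L ^ 2) (fun f : ℕ → Bool => (VV z f : ℝ) - z),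
      integral_div ((z : ℝ) ^ 2) (fun f : ℕ → Bool => ((VV z f : ℝ) - z) ^ 2), hmean,
      integral_indicator_const _ hTm, integral_const]
    simp only [probReal_univ, smul_eq_mul, one_mul]
  rw [hval]
  have hFF : FF (max x0 16) z = 1 / L := by
    unfold FF
    rw [max_eq_left hz.le, hL]
  rw [hFF]
  have hdrift := drift_lower h1 h4 z (by omega)
  obtain ⟨ρ, hρ⟩ : ∃ ρ : ℝ, ρ = ∫ f, dr pp (NN z f) ∂(coins pp) := ⟨_, rfl⟩
  obtain ⟨σ, hσ⟩ : ∃ σ : ℝ, σ = ∫ f, ((VV z f : ℝ) - z) ^ 2 ∂(coins pp) := ⟨_, rfl⟩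
  obtain ⟨t, ht⟩ : ∃ t : ℝ, t = (coins pp).real T := ⟨_, rfl⟩
  rw [← hρ] at hdrift
  rw [← hσ] at hsq
  rw [← ht] at htail
  rw [← hρ, ← hσ, ← ht]
  have hσle : σ ≤ 2 * z + C * s + C := by
    have := (abs_le.1 hsq).2
    rw [← hs] at this
    linarith
  -- the error
  have herr2 : 1 + err C z ≤ ρ := by linarith
  have herr3 : err C z = 4 * η + 16 / L + 21 * C / s + 2 * (z * L ^ 2 * Real.exp (-s / 4)) := by
    unfold err
    rw [← hL, ← hs, hη, ← hs]
    ring
  have hmain : ((1 / 2 + 2 * η) + 8 / L) * σ / z + 2 * (z * L ^ 2 * t) ≤ ρ := by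
    refine le_trans ?_ herr2
    rw [herr3]
    have hA : 0 ≤ (1 / 2 + 2 * η) + 8 / L := by positivity
    have hA2 : (1 / 2 + 2 * η) + 8 / L ≤ 21 / 2 := by
      have : 8 / L ≤ 8 := by
        rw [div_le_iff₀ (by linarith)]
        linarith
      linarith
    have h5 : ((1 / 2 + 2 * η) + 8 / L) * σ / z ≤ 1 + 4 * η + 16 / L + 21 * C / s := by
      calc ((1 / 2 + 2 * η) + 8 / L) * σ / z ≤
            ((1 / 2 + 2 * η) + 8 / L) * (2 * z + C * s + C * s) / z := by
            apply div_le_div_of_nonneg_right _ hz0.le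
            apply mul_le_mul_of_nonneg_left _ hA
            have : C ≤ C * s := by nlinarith
            linarith
        _ = 1 + 4 * η + 16 / L + ((1 / 2 + 2 * η) + 8 / L) * (2 * C / s) := by
            rw [← hss]
            have : s ≠ 0 := by linarith
            have : L ≠ 0 := by linarith
            field_simp
            ring
        _ ≤ 1 + 4 * η + 16 / L + (21 / 2) * (2 * C / s) := by
            have : 0 ≤ 2 * C / s := by positivity
            have := mul_le_mul_of_nonneg_right hA2 this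
            linarith
        _ = 1 + 4 * η + 16 / L + 21 * C / s := by ring
    have h6 : 2 * (z * L ^ 2 * t) ≤ 2 * (z * L ^ 2 * Real.exp (-s / 4)) := by
      have : 0 ≤ (z : ℝ) * L ^ 2 := by positivity
      have := mul_le_mul_of_nonneg_left htail this
      linarith
    linarith
  have hfin : ((1 / 2 + 2 * η) / L ^ 2 + 8 / L ^ 3) * (σ / z ^ 2) + t * 2 ≤ ρ / (z * L ^ 2) := by
    rw [le_div_iff₀ (by positivity)]
    refine le_trans (le_of_eq ?_) hmain
    have : L ≠ 0 := by linarith
    field_simp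
  linarith

end

end Pool.Agent.Q294.Ce
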