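import Pool.Agent.Q294.Cookie.Det

/-!
# Right transience of an excited random walk at the critical point: definitions and statements

Coins of a site: `f : ℕ → Bool`, `f j` is the coin of the `(j+1)`-st visit (`true` = step to the right =
success).  `Q294.Cookie.suc f j`, `Q294.Cookie.fai f j` are the numbers of successes and failures among
the first `j` coins; `Q294.Cookie.xx c n` is the position after `n` steps of the walk driven by the
coins `c : ℤ → ℕ → Bool`, `Q294.Cookie.ll c n y` its number of visits of `y` before time `n`.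
-/

set_option autoImplicit false

namespace Pool.Agent.Q294.Ce

open MeasureTheory ProbabilityTheory Filter Topology
open _root_.Q294.Cookie (suc fai xx ll)

noncomputable section

/-- clip to `[0, 1]` -/
def cl (a : ℝ) : ℝ := max 0 (min a 1)

lemma cl_nonneg (a : ℝ) : 0 ≤ cl a := le_max_left _ _

lemma cl_le_one (a : ℝ) : cl a ≤ 1 := max_le zero_le_one (min_le_right _ _)

lemma cl_eq {a : ℝ} (h0 : 0 ≤ a) (h1 : a ≤ 1) : cl a = a := by
  unfold cl
  rw [min_eq_left h1, max_eq_right h0]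

/-- the law of a coin with success probability `a` -/
def bern (a : ℝ) : Measure Bool :=
  ENNReal.ofReal (cl a) • Measure.dirac true + ENNReal.ofReal (1 - cl a) • Measure.dirac false

instance (a : ℝ) : IsProbabilityMeasure (bern a) := by
  constructor
  unfold bern
  rw [Measure.add_apply, Measure.smul_apply, Measure.smul_apply, measure_univ, measure_univ,
    smul_eq_mul, smul_eq_mul, mul_one, mul_one, ← ENNReal.ofReal_add (cl_nonneg a)
    (sub_nonneg.2 (cl_le_one a)), add_sub_cancel, ENNReal.ofReal_one]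

/-- the law of the coins of a site -/
def coins (p : ℕ → ℝ) : Measure (ℕ → Bool) := Measure.infinitePi fun j => bern (p j)

instance (p : ℕ → ℝ) : IsProbabilityMeasure (coins p) := by
  unfold coins
  infer_instance

/-- the number of trials up to the `k`-th failure -/
def NN (k : ℕ) (f : ℕ → Bool) : ℕ := sInf {j | k ≤ fai f j}

/-- the number of successes before the `k`-th failure -/
def VV (k : ℕ) (f : ℕ → Bool) : ℕ := NN k f - k

/-- the drift of the first `n` coins -/
def dr (p : ℕ → ℝ) (n : ℕ) : ℝ := ∑ i ∈ Finset.range n, (2 * p i - 1)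

/-- the assumptions on the environment -/
structure Good (p : ℕ → ℝ) (κ Δ : ℝ) : Prop where
  pos : 0 < κ
  lo : ∀ j, κ ≤ p j
  hi : ∀ j, p j ≤ 1 - κ
  dr_nonneg : ∀ n, 0 ≤ dr p n
  dr_le : ∀ n, dr p n ≤ Δ
  sq_le : ∀ n, ∑ i ∈ Finset.range n, (2 * p i - 1) ^ 2 ≤ Δ

/-! ### JOB J1: moments (optional stopping) -/

/-- almost surely there are infinitely many failures; `NN k` is integrable; the mean of `VV k` -/
def S_mean : Prop := ∀ (p : ℕ → ℝ) (κ Δ : ℝ), Good p κ Δ →
  (∀ᵐ f ∂(coins p), ∀ k, ∃ j, k ≤ fai f j) ∧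
  (∀ k, Measurable (NN k)) ∧
  (∀ k, Integrable (fun f => (NN k f : ℝ)) (coins p)) ∧
  ∀ k, ∫ f, ((VV k f : ℝ) - k) ∂(coins p) = ∫ f, dr p (NN k f) ∂(coins p)

/-- the second moment -/
def S_second : Prop := ∀ (p : ℕ → ℝ) (κ Δ : ℝ), Good p κ Δ → ∃ C : ℝ, 0 ≤ C ∧ ∀ k : ℕ,
  Integrable (fun f => ((VV k f : ℝ) - k) ^ 2) (coins p) ∧
  |∫ f, ((VV k f : ℝ) - k) ^ 2 ∂(coins p) - 2 * k| ≤ C * √k + C

/-! ### JOB J2: the left tail, and the environment -/

/-- the left tail -/
def S_left : Prop := ∀ (p : ℕ → ℝ) (κ Δ : ℝ), Good p κ Δ → ∀ k a : ℕ, 1 ≤ k →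
  (coins p).real {f | (∀ m, ∃ j, m ≤ fai f j) ∧ VV k f + a ≤ k} ≤ Real.exp (-(a : ℝ) ^ 2 / (4 * k))

/-- the excess drift -/
def cc (n : ℕ) : ℝ := 1 / √(1 + Real.log (n + 1))

/-- the environment: `dr pp n = 1 + cc n` for `n ≥ 3` -/
def pp (i : ℕ) : ℝ := if i < 3 then (1 + (1 + cc 3) / 3) / 2 else (1 + (cc (i + 1) - cc i)) / 2

def S_env : Prop := Good pp (1 / 10) 3 ∧ (∀ n, 3 ≤ n → dr pp n = 1 + cc n)

/-! ### J3: survival -/

/-- the Lyapunov function -/
def FF (x : ℕ) (y : ℕ) : ℝ := 1 / Real.log (max y x : ℕ)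

def S_lyap : Prop := ∃ x : ℕ, 3 ≤ x ∧ ∀ z : ℕ, x < z → ∫ f, FF x (VV z f) ∂(coins pp) ≤ FF x z

/-- the chain of the numbers of left steps -/
def ch (ω : ℕ → ℕ → Bool) (z : ℕ) : ℕ → ℕ
  | 0 => z
  | k + 1 => VV (ch ω z k) (ω k)

def S_surv : Prop := 0 < (Measure.infinitePi fun _ : ℕ => coins pp) {ω | ∀ k, 0 < ch ω 1 k}

/-! ### J4: the walk, deterministic part -/

/-- if the walk goes below `0` then the chain of the right half-line dies out -/
def S_stay : Prop := ∀ c : ℤ → ℕ → Bool, (∃ n, xx c n < 0) →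
  ∃ k, ch (fun i : ℕ => c (i : ℤ)) 1 k = 0

/-- if the walk reaches `m` and the walk in the environment seen from `m` stays nonnegative, then
from some time on the walk is at least `m` -/
def S_shift : Prop := ∀ (c : ℤ → ℕ → Bool) (m : ℕ), (∃ n, xx c n = m) →
  (∀ n, 0 ≤ xx (fun y => c (y + m)) n) → ∃ N, ∀ n, N ≤ n → (m : ℤ) ≤ xx c n

/-! ### J5: processes with the transition probabilities of the excited random walk -/

/-- the number of visits to the current position up to and including time `n` -/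
def visits (x : ℕ → ℤ) (n : ℕ) : ℕ := ((Finset.range (n + 1)).filter fun k => x k = x n).card

/-- `X` is an excited random walk from `0`: at its `j`-th visit to a site it steps to the right with
probability `p (j - 1)` and to the left otherwise. -/
structure IsERW {Ω : Type*} [MeasurableSpace Ω] (p : ℕ → ℝ) (P : Measure Ω) (X : ℕ → Ω → ℤ) :
    Prop where
  meas : ∀ n, Measurable (X n)
  start : ∀ᵐ ω ∂P, X 0 ω = 0
  right : ∀ (n : ℕ) (x : ℕ → ℤ), P.real {ω | (∀ k ≤ n, X k ω = x k) ∧ X (n + 1) ω = x n + 1} =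
    p (visits x n - 1) * P.real {ω | ∀ k ≤ n, X k ω = x k}
  left : ∀ (n : ℕ) (x : ℕ → ℤ), P.real {ω | (∀ k ≤ n, X k ω = x k) ∧ X (n + 1) ω = x n - 1} =
    (1 - p (visits x n - 1)) * P.real {ω | ∀ k ≤ n, X k ω = x k}

/-- the law of the coins of all sites -/
def env (p : ℕ → ℝ) : Measure (ℤ → ℕ → Bool) := Measure.infinitePi fun _ : ℤ => coins p

/-- JOB J5a: the walk driven by independent coins is an excited random walk -/
def S_stack : Prop := ∀ p : ℕ → ℝ, (∀ j, 0 ≤ p j) → (∀ j, p j ≤ 1) →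
  IsERW p (env p) (fun n c => xx c n)

/-- JOB J5b: uniqueness of the law -/
def S_law : Prop := ∀ (p : ℕ → ℝ) (Ω Ω' : Type) [MeasurableSpace Ω] [MeasurableSpace Ω']
  (P : Measure Ω) (P' : Measure Ω') [IsProbabilityMeasure P] [IsProbabilityMeasure P']
  (X : ℕ → Ω → ℤ) (X' : ℕ → Ω' → ℤ), IsERW p P X → IsERW p P' X' →
  P.map (fun ω n => X n ω) = P'.map (fun ω n => X' n ω)

/-- JOB J5c: the walk is unbounded above (martingale) -/
def S_sup : Prop := ∀ (p : ℕ → ℝ) (κ Δ : ℝ), Good p κ Δ → ∀ (Ω : Type) [MeasurableSpace Ω]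
  (P : Measure Ω) [IsProbabilityMeasure P] (X : ℕ → Ω → ℤ), IsERW p P X →
  ∀ᵐ ω ∂P, ∀ m : ℤ, ∃ n, m < X n ω

end

end Pool.Agent.Q294.Ce
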