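import Pool.Agent.Q294.Ce.Walk
import Pool.Agent.Q294.Cookie.Geo

/-! Survival of the chain of the numbers of left steps. -/

set_option autoImplicit false

namespace Pool.Agent.Q294.Ce

open MeasureTheory ProbabilityTheory Filter Topology
open _root_.Q294.Cookie (suc fai fai_succ fai_zero cons cons_law measurable_cons integral_cons)

noncomputable section

/-- the law of the coins of the sites `0, 1, 2, …` -/
abbrev PP : Measure (ℕ → ℕ → Bool) := Measure.infinitePi fun _ : ℕ => coins pp

lemma ch_cons (a : ℕ → Bool) (ω : ℕ → ℕ → Bool) (z k : ℕ) :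
    ch (cons a ω) z (k + 1) = ch ω (VV z a) k := by
  induction k with
  | zero => rfl
  | succ k ih =>
    show VV (ch (cons a ω) z (k + 1)) (cons a ω (k + 1)) = VV (ch ω (VV z a) k) (ω k)
    rw [ih]
    rfl

lemma measurable_VV' (hm : ∀ k, Measurable (NN k)) (k : ℕ) : Measurable (VV k) :=
  (Measurable.of_discrete (f := fun n : ℕ => n - k)).comp (hm k)

lemma measurable_ch (hm : ∀ k, Measurable (NN k)) (z k : ℕ) :
    Measurable (fun ω : ℕ → ℕ → Bool => ch ω z k) := by
  induction k with
  | zero => exact measurable_const
  | succ k ih =>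
    have h1 : Measurable (fun q : ℕ × (ℕ → Bool) => VV q.1 q.2) :=
      measurable_from_prod_countable_right fun n => measurable_VV' hm n
    exact h1.comp (ih.prodMk (measurable_pi_apply k))

/-- the chain started at `z` is at most `x` before time `k` -/
def BB (x k z : ℕ) : Set (ℕ → ℕ → Bool) := {ω | ∃ j ≤ k, ch ω z j ≤ x}

lemma measurableSet_BB (hm : ∀ k, Measurable (NN k)) (x k z : ℕ) : MeasurableSet (BB x k z) := by
  have e : BB x k z = ⋃ j ∈ Finset.range (k + 1), {ω : ℕ → ℕ → Bool | ch ω z j ≤ x} := by
    ext ω
    simp only [BB, Set.mem_ofPred_eq, Set.mem_iUnion, Finset.mem_range, exists_prop]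
    constructor
    · rintro ⟨j, h1, h2⟩
      exact ⟨j, by omega, h2⟩
    · rintro ⟨j, h1, h2⟩
      exact ⟨j, by omega, h2⟩
  rw [e]
  exact Finset.measurableSet_biUnion _ fun j _ => measurable_ch hm z j measurableSet_Iic

lemma FF_pos {x : ℕ} (hx : 3 ≤ x) (z : ℕ) : 0 < FF x z := by
  unfold FF
  have h1 : (1 : ℝ) < ((max z x : ℕ) : ℝ) := by
    have : 1 < max z x := by omega
    exact_mod_cast this
  have := Real.log_pos h1
  positivity

lemma FF_le_self {x : ℕ} (hx : 3 ≤ x) (z : ℕ) : FF x z ≤ FF x x := by
  unfold FF
  have h1 : (1 : ℝ) < (x : ℝ) := by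
    have : 1 < x := by omega
    exact_mod_cast this
  rw [max_self]
  apply one_div_le_one_div_of_le (Real.log_pos h1)
  apply Real.log_le_log (by linarith)
  exact_mod_cast le_max_right z x

lemma prob_BB (hm : ∀ k, Measurable (NN k)) {x : ℕ} (hx : 3 ≤ x)
    (hL : ∀ z : ℕ, x < z → ∫ f, FF x (VV z f) ∂(coins pp) ≤ FF x z) (k : ℕ) :
    ∀ z, PP.real (BB x k z) ≤ FF x z / FF x x := by
  have hxx := FF_pos hx x
  induction k with
  | zero =>
    intro z
    by_cases hz : z ≤ x
    · have : FF x z = FF x x := by
        unfold FF
        rw [max_eq_right hz, max_self]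
      rw [this, div_self hxx.ne']
      exact measureReal_le_one
    · have : BB x 0 z = ∅ := by
        ext ω
        simp only [BB, Set.mem_ofPred_eq, Set.mem_empty_iff_false, iff_false]
        rintro ⟨j, h1, h2⟩
        have : j = 0 := by omega
        subst this
        exact hz h2
      rw [this, measureReal_empty]
      exact div_nonneg (FF_pos hx z).le hxx.le
  | succ k ih =>
    intro z
    by_cases hz : z ≤ x
    · have : FF x z = FF x x := by
        unfold FF
        rw [max_eq_right hz, max_self]
      rw [this, div_self hxx.ne']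
      exact measureReal_le_one
    · push Not at hz
      have hms := measurableSet_BB hm x (k + 1) z
      have h1 : PP.real (BB x (k + 1) z) =
          ∫ a, PP.real (BB x k (VV z a)) ∂(coins pp) := by
        have h2 := integral_cons (coins pp) (F := (BB x (k + 1) z).indicator fun _ => (1 : ℝ))
          (measurable_const.indicator hms) (fun f => by
            by_cases h : f ∈ BB x (k + 1) z
            · rw [Set.indicator_of_mem h]
              norm_num
            · rw [Set.indicator_of_notMem h]
              norm_num)
        have h3 : ∫ f, (BB x (k + 1) z).indicator (fun _ => (1 : ℝ)) f ∂PP =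
            PP.real (BB x (k + 1) z) := by
          rw [integral_indicator_const _ hms]
          simp
        rw [← h3]
        refine h2.trans ?_
        apply integral_congr_ae
        refine Eventually.of_forall fun a => ?_
        have h4 : ∀ f, (BB x (k + 1) z).indicator (fun _ => (1 : ℝ)) (cons a f) =
            (BB x k (VV z a)).indicator (fun _ => (1 : ℝ)) f := by
          intro f
          have h5 : (cons a f ∈ BB x (k + 1) z) ↔ f ∈ BB x k (VV z a) := by
            constructor
            · rintro ⟨j, hj, hj2⟩
              cases j with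
              | zero => exact absurd hj2 (not_le.2 hz)
              | succ j =>
                rw [ch_cons] at hj2
                exact ⟨j, by omega, hj2⟩
            · rintro ⟨j, hj, hj2⟩
              refine ⟨j + 1, by omega, ?_⟩
              rw [ch_cons]
              exact hj2
          by_cases h6 : f ∈ BB x k (VV z a)
          · rw [Set.indicator_of_mem h6, Set.indicator_of_mem (h5.2 h6)]
          · rw [Set.indicator_of_notMem h6, Set.indicator_of_notMem (fun h => h6 (h5.1 h))]
        show ∫ f, (BB x (k + 1) z).indicator (fun _ => (1 : ℝ)) (cons a f) ∂PP = _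
        simp_rw [h4]
        rw [integral_indicator_const _ (measurableSet_BB hm x k _)]
        simp
      rw [h1]
      have hVm := measurable_VV' hm z
      have h2 : ∫ a, PP.real (BB x k (VV z a)) ∂(coins pp) ≤
          ∫ a, FF x (VV z a) / FF x x ∂(coins pp) := by
        apply integral_mono
        · have h3 : Measurable (fun a => PP.real (BB x k (VV z a))) :=
            (Measurable.of_discrete (f := fun n => PP.real (BB x k n))).comp hVm
          apply Integrable.of_bound h3.aestronglyMeasurable 1
          refine Eventually.of_forall fun a => ?_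
          rw [Real.norm_eq_abs, abs_of_nonneg measureReal_nonneg]
          exact measureReal_le_one
        · have h3 : Measurable (fun a => FF x (VV z a) / FF x x) :=
            ((Measurable.of_discrete (f := FF x)).comp hVm).div_const _
          apply Integrable.of_bound h3.aestronglyMeasurable 1
          refine Eventually.of_forall fun a => ?_
          rw [Real.norm_eq_abs, abs_of_nonneg (div_nonneg (FF_pos hx _).le hxx.le),
            div_le_one hxx]
          exact FF_le_self hx _
        · intro a
          exact ih _
      refine h2.trans ?_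
      rw [integral_div]
      exact div_le_div_of_nonneg_right (hL z hz) hxx.le

lemma bern_pos (a : ℝ) (h0 : 0 < a) (h1 : a < 1) (b : Bool) : 0 < bern a {b} := by
  unfold bern
  rw [cl_eq h0.le h1.le]
  cases b
  · simp [h1]
  · simp [h0]

lemma first_step (hG : Good pp (1 / 10) 3) (x : ℕ) : 0 < coins pp {a | VV 1 a = x + 1} := by
  have h1 : Set.pi (↑(Finset.range (x + 2)))
      (fun i => ({decide (i < x + 1)} : Set Bool)) ⊆ {a : ℕ → Bool | VV 1 a = x + 1} := by
    intro a ha
    have h2 : ∀ i, i < x + 2 → a i = decide (i < x + 1) := fun i hi =>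
      ha i (by simpa using hi)
    have h3 : ∀ j, j ≤ x + 1 → fai a j = 0 := by
      intro j hj
      induction j with
      | zero => exact fai_zero a
      | succ j ih =>
        rw [fai_succ, ih (by omega), h2 j (by omega)]
        simp
        omega
    have h4 : fai a (x + 2) = 1 := by
      rw [show x + 2 = (x + 1) + 1 by ring, fai_succ, h3 (x + 1) le_rfl, h2 (x + 1) (by omega)]
      simp
    have h5 : NN 1 a = x + 2 := by
      refine le_antisymm (Nat.sInf_le (le_of_eq h4.symm)) ?_
      refine le_csInf ⟨_, le_of_eq h4.symm⟩ ?_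
      intro j hj
      by_contra hcon
      push Not at hcon
      have h6 : 1 ≤ fai a j := hj
      rw [h3 j (by omega)] at h6
      omega
    show NN 1 a - 1 = x + 1
    rw [h5]
    rfl
  refine lt_of_lt_of_le ?_ (measure_mono h1)
  unfold coins
  rw [Measure.infinitePi_pi _ (fun i _ => MeasurableSet.singleton _)]
  rw [pos_iff_ne_zero, Finset.prod_ne_zero_iff]
  intro i _
  exact (bern_pos (pp i) (by have := hG.lo i; linarith) (by have := hG.hi i; linarith) _).ne'

lemma surv_of_lyap (hm : ∀ k, Measurable (NN k)) (hG : Good pp (1 / 10) 3) (hL : S_lyap) :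
    S_surv := by
  obtain ⟨x, hx, hL⟩ := hL
  have hxx := FF_pos hx x
  -- the chain started at `x + 1` stays above `x` with positive probability
  obtain ⟨S, hS⟩ : ∃ S : Set (ℕ → ℕ → Bool), S = (⋃ k, BB x k (x + 1))ᶜ := ⟨_, rfl⟩
  have hSm : MeasurableSet S := by
    rw [hS]
    exact (MeasurableSet.iUnion fun k => measurableSet_BB hm x k _).compl
  have h1 : PP.real (⋃ k, BB x k (x + 1)) ≤ FF x (x + 1) / FF x x := by
    have hmono : Monotone fun k => BB x k (x + 1) := by
      intro a b hab ω hω
      obtain ⟨j, h1, h2⟩ := hω
      exact ⟨j, h1.trans hab, h2⟩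
    have h2 := tendsto_measure_iUnion_atTop (μ := PP) hmono
    have h3 : Tendsto (fun k => PP.real (BB x k (x + 1))) atTop
        (𝓝 (PP.real (⋃ k, BB x k (x + 1)))) :=
      (ENNReal.tendsto_toReal (measure_ne_top _ _)).comp h2
    exact le_of_tendsto' h3 fun k => prob_BB hm hx hL k (x + 1)
  have h2 : FF x (x + 1) / FF x x < 1 := by
    rw [div_lt_one hxx]
    unfold FF
    have h3 : (1 : ℝ) < (x : ℝ) := by
      have : 1 < x := by omega
      exact_mod_cast this
    rw [max_self, max_eq_left (by omega)]
    apply one_div_lt_one_div_of_lt (Real.log_pos h3)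
    apply Real.log_lt_log (by linarith)
    push_cast
    linarith
  have hSpos : PP S ≠ 0 := by
    intro h0
    have h3 : PP.real S = 0 := by
      unfold Measure.real
      rw [h0]
      rfl
    rw [hS, probReal_compl_eq_one_sub (MeasurableSet.iUnion fun k => measurableSet_BB hm x k _)]
      at h3
    linarith
  have hApos := first_step hG x
  have hAm : MeasurableSet {a : ℕ → Bool | VV 1 a = x + 1} :=
    measurable_VV' hm 1 (measurableSet_singleton _)
  have hEm : MeasurableSet {ω : ℕ → ℕ → Bool | ∀ k, 0 < ch ω 1 k} := by
    have : {ω : ℕ → ℕ → Bool | ∀ k, 0 < ch ω 1 k} = ⋂ k, {ω | 0 < ch ω 1 k} := by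
      ext ω
      simp
    rw [this]
    exact MeasurableSet.iInter fun k => measurable_ch hm 1 k measurableSet_Ioi
  show 0 < PP {ω | ∀ k, 0 < ch ω 1 k}
  rw [show PP = ((coins pp).prod PP).map (fun p => cons p.1 p.2) from (cons_law (coins pp)).symm,
    Measure.map_apply measurable_cons hEm]
  have hsub : {a : ℕ → Bool | VV 1 a = x + 1} ×ˢ S ⊆
      (fun p : (ℕ → Bool) × (ℕ → ℕ → Bool) => cons p.1 p.2) ⁻¹' {ω | ∀ k, 0 < ch ω 1 k} := by
    rintro ⟨a, ω⟩ ⟨h3, h4⟩
    have h3' : VV 1 a = x + 1 := h3
    have h4' : ω ∈ S := h4
    show ∀ k, 0 < ch (cons a ω) 1 k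
    intro k
    cases k with
    | zero => exact Nat.one_pos
    | succ k =>
      rw [ch_cons, h3']
      rw [hS, Set.mem_compl_iff, Set.mem_iUnion] at h4'
      by_contra hcon
      exact h4' ⟨k, k, le_rfl, by omega⟩
  refine lt_of_lt_of_le ?_ (measure_mono hsub)
  rw [Measure.prod_prod]
  exact ENNReal.mul_pos hApos.ne' hSpos

end

end Pool.Agent.Q294.Ce
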