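import Pool.Agent.Q294.Ce.Surv
import Mathlib.Probability.Independence.ZeroOne
import Mathlib.Probability.Independence.InfinitePi

/-! Right transience. -/

set_option autoImplicit false

namespace Pool.Agent.Q294.Ce

open MeasureTheory ProbabilityTheory Filter Topology
open _root_.Q294.Cookie (suc fai xx ll xx_succ)

noncomputable section

/-- the chain started at the site `m` survives -/
def AA (m : ℕ) : Set (ℕ → ℕ → Bool) := {ω | ∀ k, 0 < ch (fun i => ω (i + m)) 1 k}

lemma measurableSet_AA0 (hm : ∀ k, Measurable (NN k)) :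
    MeasurableSet {ω : ℕ → ℕ → Bool | ∀ k, 0 < ch ω 1 k} := by
  have : {ω : ℕ → ℕ → Bool | ∀ k, 0 < ch ω 1 k} = ⋂ k, {ω | 0 < ch ω 1 k} := by
    ext ω
    simp
  rw [this]
  exact MeasurableSet.iInter fun k => measurable_ch hm 1 k measurableSet_Ioi

lemma measurable_shift (m : ℕ) : Measurable (fun (ω : ℕ → ℕ → Bool) (i : ℕ) => ω (i + m)) :=
  measurable_pi_lambda _ fun i => measurable_pi_apply (i + m)

lemma measurableSet_AA (hm : ∀ k, Measurable (NN k)) (m : ℕ) : MeasurableSet (AA m) :=
  measurable_shift m (measurableSet_AA0 hm)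

lemma PP_AA (hm : ∀ k, Measurable (NN k)) (m : ℕ) : PP (AA m) = PP {ω | ∀ k, 0 < ch ω 1 k} := by
  have h1 : PP.map (fun (ω : ℕ → ℕ → Bool) (i : ℕ) => ω (i + m)) = PP :=
    Measure.map_infinitePi_infinitePi_of_inj (P := fun _ : ℕ => coins pp)
      (f := fun i : ℕ => i + m) (fun a b h => Nat.add_right_cancel h)
  conv_rhs => rw [← h1]
  rw [Measure.map_apply (measurable_shift m) (measurableSet_AA0 hm)]
  rfl

/-- the `σ`-algebra of the coins at the site `i` -/
abbrev sg (i : ℕ) : MeasurableSpace (ℕ → ℕ → Bool) :=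
  MeasurableSpace.comap (fun ω : ℕ → ℕ → Bool => ω i) inferInstance

lemma measurableSet_AA_tail (hm : ∀ k, Measurable (NN k)) {n m : ℕ} (h : n ≤ m) :
    MeasurableSet[⨆ i ≥ n, sg i] (AA m) := by
  have h1 : @Measurable _ _ (⨆ i ≥ n, sg i) _ (fun (ω : ℕ → ℕ → Bool) (i : ℕ) => ω (i + m)) := by
    refine @measurable_pi_lambda _ _ _ (⨆ i ≥ n, sg i) _ _ fun i => ?_
    have h2 : sg (i + m) ≤ ⨆ i ≥ n, sg i :=
      le_iSup₂_of_le (i + m) (by show n ≤ i + m; omega) le_rfl
    exact (comap_measurable (fun ω : ℕ → ℕ → Bool => ω (i + m))).mono h2 le_rfl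
  exact h1 (measurableSet_AA0 hm)

/-- infinitely many of the events `AA m` occur -/
lemma ae_io (hm : ∀ k, Measurable (NN k)) (hS : S_surv) :
    ∀ᵐ ω ∂PP, ∀ n, ∃ m, n ≤ m ∧ ω ∈ AA m := by
  obtain ⟨U, hU⟩ : ∃ U : ℕ → Set (ℕ → ℕ → Bool), U = fun n => ⋃ m ∈ Set.Ici n, AA m := ⟨_, rfl⟩
  obtain ⟨T, hT⟩ : ∃ T : Set (ℕ → ℕ → Bool), T = ⋂ n, U n := ⟨_, rfl⟩
  have hanti : Antitone U := by
    intro a b hab
    rw [hU]
    exact Set.biUnion_subset_biUnion_left (Set.Ici_subset_Ici.2 hab)
  have hUm : ∀ n, MeasurableSet (U n) := by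
    intro n
    rw [hU]
    exact MeasurableSet.biUnion (Set.to_countable _) fun m _ => measurableSet_AA hm m
  have hTn : ∀ n, T = ⋂ k ∈ Set.Ici n, U k := by
    intro n
    rw [hT]
    apply Set.Subset.antisymm
    · exact Set.subset_iInter₂ fun k _ => Set.iInter_subset _ k
    · refine Set.subset_iInter fun k => ?_
      refine (Set.biInter_subset_of_mem (Set.mem_Ici.2 (le_max_left n k))).trans ?_
      exact hanti (le_max_right _ _)
  -- the zero-one law
  have htail : MeasurableSet[limsup sg atTop] T := by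
    rw [limsup_eq_iInf_iSup_of_nat, MeasurableSpace.measurableSet_iInf]
    intro n
    rw [hTn n]
    refine MeasurableSet.biInter (Set.to_countable _) fun k hk => ?_
    rw [hU]
    refine MeasurableSet.biUnion (Set.to_countable _) fun m hm2 => ?_
    exact measurableSet_AA_tail hm (le_trans hk hm2)
  have hind : iIndep sg PP :=
    iIndepFun_infinitePi (P := fun _ : ℕ => coins pp) (X := fun _ f => f) (fun _ => measurable_id)
  have hle : ∀ n, sg n ≤ MeasurableSpace.pi := fun n => (measurable_pi_apply n).comap_le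
  have h01 := measure_zero_or_one_of_measurableSet_limsup_atTop hle hind htail
  have hpos : PP T ≠ 0 := by
    have h1 : Tendsto (PP ∘ U) atTop (𝓝 (PP (⋂ n, U n))) :=
      tendsto_measure_iInter_atTop (fun n => (hUm n).nullMeasurableSet) hanti
        ⟨0, measure_ne_top _ _⟩
    rw [← hT] at h1
    have h2 : PP {ω | ∀ k, 0 < ch ω 1 k} ≤ PP T := by
      refine ge_of_tendsto' h1 fun n => ?_
      rw [← PP_AA hm n]
      apply measure_mono
      rw [hU]
      exact Set.subset_biUnion_of_mem (u := AA) (Set.mem_Ici.2 (le_refl n))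
    exact (lt_of_lt_of_le hS h2).ne'
  have h1 : PP T = 1 := h01.resolve_left hpos
  have hTm : MeasurableSet T := by
    rw [hT]
    exact MeasurableSet.iInter hUm
  have h2 : ∀ᵐ ω ∂PP, ω ∈ T := (prob_compl_eq_zero_iff hTm).2 h1
  filter_upwards [h2] with ω hω n
  rw [hT, Set.mem_iInter] at hω
  have h3 := hω n
  rw [hU] at h3
  simp only [Set.mem_iUnion, Set.mem_Ici, exists_prop] at h3
  exact h3

/-- the walk driven by the coins goes to `+∞` -/
lemma trans_env (hm : ∀ k, Measurable (NN k)) (hG : Good pp (1 / 10) 3) (hS : S_surv)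
    (hst : S_stack) (hsup : S_sup) :
    ∀ᵐ c ∂(env pp), ∀ b : ℤ, ∃ N, ∀ n, N ≤ n → b ≤ xx c n := by
  have hinj : Function.Injective (fun i : ℕ => (i : ℤ)) := Nat.cast_injective
  have hmap : (env pp).map (fun (c : ℤ → ℕ → Bool) (i : ℕ) => c (i : ℤ)) = PP :=
    Measure.map_infinitePi_infinitePi_of_inj (P := fun _ : ℤ => coins pp) hinj
  have hmeas : Measurable (fun (c : ℤ → ℕ → Bool) (i : ℕ) => c (i : ℤ)) :=
    measurable_pi_lambda _ fun i => measurable_pi_apply (i : ℤ)
  have h1 : ∀ᵐ c ∂(env pp), ∀ n, ∃ m, n ≤ m ∧ (fun i : ℕ => c (i : ℤ)) ∈ AA m := by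
    have h2 := ae_io hm hS
    rw [← hmap] at h2
    exact ae_of_ae_map hmeas.aemeasurable h2
  have hE := hst pp (fun j => by have := hG.lo j; linarith) (fun j => by have := hG.hi j; linarith)
  have : IsProbabilityMeasure (env pp) := by
    unfold env
    infer_instance
  have h2 := hsup pp _ _ hG _ (env pp) _ hE
  filter_upwards [h1, h2] with c hc1 hc2 b
  obtain ⟨m, hm1, hm2⟩ := hc1 b.toNat
  have hb : b ≤ (m : ℤ) := by omega
  -- the walk reaches `m`
  have hreach : ∃ n, xx c n = m := by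
    obtain ⟨n, hn⟩ := hc2 m
    have key : ∀ n, (∀ k ≤ n, xx c k ≠ m) → xx c n < m := by
      intro n
      induction n with
      | zero =>
        intro h
        have h0 := h 0 le_rfl
        have h1 : xx c 0 = 0 := rfl
        rw [h1] at h0 ⊢
        omega
      | succ n ih =>
        intro h
        have h1 := ih fun k hk => h k (by omega)
        have h2 := h (n + 1) le_rfl
        have h3 : xx c (n + 1) ≤ xx c n + 1 := by
          rw [xx_succ]
          split_ifs <;> omega
        omega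
    by_contra hcon
    push Not at hcon
    have := key n fun k _ => hcon k
    have hn' : (m : ℤ) < xx c n := hn
    omega
  have hstay : ∀ n, 0 ≤ xx (fun y => c (y + m)) n := by
    by_contra hcon
    push Not at hcon
    obtain ⟨k, hk⟩ := stay (fun y => c (y + m)) hcon
    have h3 := hm2 k
    have e : (fun i : ℕ => (fun j : ℕ => c (j : ℤ)) (i + m)) = fun i : ℕ => c ((i : ℤ) + m) := by
      funext i
      push_cast
      rfl
    rw [e] at h3
    omega
  obtain ⟨N, hN⟩ := shift c m hreach hstay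
  exact ⟨N, fun n hn => hb.trans (hN n hn)⟩

/-- every excited random walk in this environment is right transient -/
theorem right_transient (hm : ∀ k, Measurable (NN k)) (hG : Good pp (1 / 10) 3) (hS : S_surv)
    (hst : S_stack) (hsup : S_sup) (hlaw : S_law) {Ω : Type*} [MeasurableSpace Ω]
    (P : Measure Ω) [IsProbabilityMeasure P] (X : ℕ → Ω → ℤ) (hX : IsERW pp P X) :
    ∀ᵐ ω ∂P, Tendsto (fun n => X n ω) atTop atTop := by
  have hXm : Measurable (fun ω n => X n ω) := measurable_pi_lambda _ hX.meas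
  have : IsProbabilityMeasure (P.map fun ω n => X n ω) := Measure.isProbabilityMeasure_map hXm.aemeasurable
  -- the canonical process
  have hms : ∀ (n : ℕ) (x : ℕ → ℤ), MeasurableSet {y : ℕ → ℤ | ∀ k ≤ n, y k = x k} := by
    intro n x
    have e : {y : ℕ → ℤ | ∀ k ≤ n, y k = x k} = ⋂ k ∈ Set.Iic n, {y | y k = x k} := by
      ext y
      simp
    rw [e]
    exact MeasurableSet.biInter (Set.to_countable _) fun k _ =>
      measurable_pi_apply k (measurableSet_singleton _)
  have hcan : IsERW pp (P.map fun ω n => X n ω) (fun n (y : ℕ → ℤ) => y n) := by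
    refine ⟨fun n => measurable_pi_apply n, ?_, fun n x => ?_, fun n x => ?_⟩
    · have h0 : MeasurableSet {y : ℕ → ℤ | y 0 = 0} :=
        measurable_pi_apply 0 (measurableSet_singleton _)
      exact (ae_map_iff hXm.aemeasurable h0).2 hX.start
    · have h1 : MeasurableSet {y : ℕ → ℤ | (∀ k ≤ n, y k = x k) ∧ y (n + 1) = x n + 1} :=
        (hms n x).inter (measurable_pi_apply (n + 1) (measurableSet_singleton _))
      rw [map_measureReal_apply hXm h1, map_measureReal_apply hXm (hms n x)]
      exact hX.right n x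
    · have h1 : MeasurableSet {y : ℕ → ℤ | (∀ k ≤ n, y k = x k) ∧ y (n + 1) = x n - 1} :=
        (hms n x).inter (measurable_pi_apply (n + 1) (measurableSet_singleton _))
      rw [map_measureReal_apply hXm h1, map_measureReal_apply hXm (hms n x)]
      exact hX.left n x
  have hE := hst pp (fun j => by have := hG.lo j; linarith) (fun j => by have := hG.hi j; linarith)
  have hpr : IsProbabilityMeasure (env pp) := by
    unfold env
    infer_instance
  have heq := hlaw pp (ℤ → ℕ → Bool) (ℕ → ℤ) (env pp) (P.map fun ω n => X n ω) _ _ hE hcan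
  have hid : (P.map fun ω n => X n ω).map (fun (y : ℕ → ℤ) n => y n) = P.map fun ω n => X n ω :=
    Measure.map_id
  rw [hid] at heq
  have htm : MeasurableSet {y : ℕ → ℤ | ∀ b : ℤ, ∃ N, ∀ n, N ≤ n → b ≤ y n} := by
    have e : {y : ℕ → ℤ | ∀ b : ℤ, ∃ N, ∀ n, N ≤ n → b ≤ y n} =
        ⋂ b : ℤ, ⋃ N : ℕ, ⋂ n ∈ Set.Ici N, {y | b ≤ y n} := by
      ext y
      simp
    rw [e]
    exact MeasurableSet.iInter fun b => MeasurableSet.iUnion fun N =>
      MeasurableSet.biInter (Set.to_countable _) fun n _ => measurable_pi_apply n measurableSet_Ici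
  have hxm : Measurable (fun (c : ℤ → ℕ → Bool) n => xx c n) := measurable_pi_lambda _ hE.meas
  have h1 : ∀ᵐ y ∂((env pp).map fun c n => xx c n), y ∈
      {y : ℕ → ℤ | ∀ b : ℤ, ∃ N, ∀ n, N ≤ n → b ≤ y n} := by
    exact (ae_map_iff hxm.aemeasurable htm).2 (trans_env hm hG hS hst hsup)
  rw [heq] at h1
  have h2 := ae_of_ae_map hXm.aemeasurable h1
  filter_upwards [h2] with ω hω
  rw [tendsto_atTop_atTop]
  exact hω

end

end Pool.Agent.Q294.Ce
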