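import Pool.Agent.Q294.Ce.Stm

/-! The deterministic part: the walk and the chain of left steps. -/

set_option autoImplicit false

namespace Pool.Agent.Q294.Ce

open MeasureTheory ProbabilityTheory Filter Topology
open _root_.Q294.Cookie (suc fai xx ll rr lf xx_succ ll_succ crossing sum_ll_le suc_add_fai fai_succ fai_zero suc_zero rr_add_lf)

noncomputable section

lemma fai_mono (f : ℕ → Bool) : Monotone (fai f) :=
  monotone_nat_of_le_succ fun j => by rw [fai_succ]; omega

lemma NN_zero (f : ℕ → Bool) : NN 0 f = 0 := by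
  unfold NN
  have h : (0 : ℕ) ∈ {j | 0 ≤ fai f j} := Nat.zero_le _
  exact Nat.le_zero.1 (Nat.sInf_le h)

lemma VV_zero (f : ℕ → Bool) : VV 0 f = 0 := by
  unfold VV
  rw [NN_zero]

/-- the last coin used at a site tells on which side of the site the walk is -/
lemma last_coin (c : ℤ → ℕ → Bool) (n : ℕ) (y : ℤ) (h : 0 < ll c n y) :
    (xx c n < y → c y (ll c n y - 1) = false) ∧ (y < xx c n → c y (ll c n y - 1) = true) := by
  induction n with
  | zero => exact absurd h (lt_irrefl 0)
  | succ n ih =>
    rw [ll_succ] at h ⊢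
    by_cases hy : y = xx c n
    · rw [if_pos hy, Nat.add_sub_cancel, xx_succ, ← hy]
      rcases hc : c y (ll c n y) with _ | _
      · simp
      · simp
    · rw [if_neg hy, add_zero] at h ⊢
      obtain ⟨h1, h2⟩ := ih h
      rw [xx_succ]
      constructor
      · intro h3
        apply h1
        split_ifs at h3 <;> omega
      · intro h3
        apply h2
        split_ifs at h3 <;> omega

lemma NN_eq (c : ℤ → ℕ → Bool) (n : ℕ) (y : ℤ) (h : xx c n < y) :
    NN (lf c n y) (c y) = ll c n y := by
  rcases Nat.eq_zero_or_pos (ll c n y) with h0 | h0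
  · have h1 : lf c n y = 0 := by
      unfold lf
      rw [h0, fai_zero]
    rw [h1, h0, NN_zero]
  · have h1 := (last_coin c n y h0).1 h
    have h2 : lf c n y = fai (c y) (ll c n y) := rfl
    have h3 : fai (c y) (ll c n y) = fai (c y) (ll c n y - 1) + 1 := by
      have h4 := fai_succ (c y) (ll c n y - 1)
      rw [Nat.sub_add_cancel h0, if_pos h1] at h4
      exact h4
    refine le_antisymm (Nat.sInf_le (le_of_eq h2)) ?_
    refine le_csInf ⟨_, le_of_eq h2⟩ ?_
    intro j hj
    by_contra hcon
    push Not at hcon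
    have h5 : fai (c y) j ≤ fai (c y) (ll c n y - 1) := fai_mono _ (by omega)
    have h6 : lf c n y ≤ fai (c y) j := hj
    omega

lemma VV_eq (c : ℤ → ℕ → Bool) (n : ℕ) (y : ℤ) (h : xx c n < y) :
    VV (lf c n y) (c y) = rr c n y := by
  unfold VV
  rw [NN_eq c n y h]
  have := rr_add_lf c n y
  omega

theorem stay : S_stay := by
  intro c hex
  classical
  obtain ⟨n, hn, hmin⟩ : ∃ n, xx c n < 0 ∧ ∀ k < n, 0 ≤ xx c k :=
    ⟨Nat.find hex, Nat.find_spec hex, fun k hk => not_lt.1 (Nat.find_min hex hk)⟩
  -- the walk has not been at negative sites before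
  have hll : ∀ k ≤ n, ∀ y : ℤ, y < 0 → ll c k y = 0 := by
    intro k hk y hy
    induction k with
    | zero => rfl
    | succ k ih =>
      rw [ll_succ, ih (by omega), if_neg]
      have := hmin k (by omega)
      omega
  have h0 : lf c n 0 = 1 := by
    have h1 := crossing c n (-1)
    have h2 : rr c n (-1) = 0 := by
      unfold rr
      rw [hll n le_rfl (-1) (by norm_num), suc_zero]
    rw [h2, if_neg (by omega), if_pos (by omega)] at h1
    have h3 : ((-1 : ℤ) + 1) = 0 := by norm_num
    rw [h3] at h1
    omega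
  have hch : ∀ k : ℕ, ch (fun i : ℕ => c (i : ℤ)) 1 k = lf c n k := by
    intro k
    induction k with
    | zero =>
      show 1 = lf c n ((0 : ℕ) : ℤ)
      rw [Nat.cast_zero, h0]
    | succ k ih =>
      show VV (ch (fun i : ℕ => c (i : ℤ)) 1 k) (c (k : ℤ)) = _
      rw [ih, VV_eq c n k (by omega)]
      have h1 := crossing c n k
      rw [if_neg (by omega), if_neg (by omega)] at h1
      push_cast
      omega
  -- some site is not visited
  by_contra hcon
  push Not at hcon
  have h1 : ∀ k : ℕ, 1 ≤ ll c n k := by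
    intro k
    have h2 := hcon k
    rw [hch k] at h2
    have := rr_add_lf c n k
    omega
  have h2 := sum_ll_le c ((Finset.range (n + 1)).image (fun i : ℕ => (i : ℤ))) n
  rw [Finset.sum_image (fun a _ b _ h => by exact_mod_cast h)] at h2
  have h3 : ∑ i ∈ Finset.range (n + 1), 1 ≤ ∑ i ∈ Finset.range (n + 1), ll c n (i : ℤ) :=
    Finset.sum_le_sum fun i _ => h1 i
  simp at h3
  omega

theorem shift : S_shift := by
  intro c m hex hpos
  classical
  obtain ⟨T, hT, hmin⟩ : ∃ n, xx c n = m ∧ ∀ k < n, xx c k ≠ m :=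
    ⟨Nat.find hex, Nat.find_spec hex, fun k hk => Nat.find_min hex hk⟩
  have hlt : ∀ k, k < T → xx c k < m := by
    intro k hk
    induction k with
    | zero =>
      have h1 : xx c 0 = 0 := rfl
      have h2 := hmin 0 hk
      rw [h1] at h2 ⊢
      omega
    | succ k ih =>
      have h1 := ih (by omega)
      have h2 := hmin (k + 1) hk
      have h3 : xx c (k + 1) ≤ xx c k + 1 := by
        rw [xx_succ]
        split_ifs <;> omega
      omega
  have hll : ∀ k ≤ T, ∀ y : ℤ, (m : ℤ) ≤ y → ll c k y = 0 := by
    intro k hk y hy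
    induction k with
    | zero => rfl
    | succ k ih =>
      rw [ll_succ, ih (by omega), if_neg]
      have := hlt k (by omega)
      omega
  have key : ∀ k, xx c (T + k) = m + xx (fun y => c (y + m)) k ∧
      ∀ y : ℤ, 0 ≤ y → ll c (T + k) (y + m) = ll (fun y => c (y + m)) k y := by
    intro k
    induction k with
    | zero =>
      refine ⟨?_, fun y hy => ?_⟩
      · rw [add_zero, hT]
        show (m : ℤ) = m + 0
        ring
      · rw [add_zero, hll T le_rfl _ (by omega)]
        rfl
    | succ k ih =>
      obtain ⟨h1, h2⟩ := ih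
      have h3 := hpos k
      have e1 : (m : ℤ) + xx (fun y => c (y + m)) k = xx (fun y => c (y + m)) k + m := by ring
      refine ⟨?_, fun y hy => ?_⟩
      · rw [← add_assoc, xx_succ, xx_succ, h1, e1, h2 _ h3]
        show (if c (xx (fun y => c (y + m)) k + m) (ll (fun y => c (y + m)) k
          (xx (fun y => c (y + m)) k)) = true then _ else _) =
          (m : ℤ) + (if c (xx (fun y => c (y + m)) k + m) (ll (fun y => c (y + m)) k
          (xx (fun y => c (y + m)) k)) = true then _ else _)
        split_ifs <;> ring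
      · rw [← add_assoc, ll_succ, ll_succ, h2 y hy, h1]
        congr 1
        by_cases h4 : y = xx (fun y => c (y + m)) k
        · rw [if_pos h4, if_pos (by omega)]
        · rw [if_neg h4, if_neg (by omega)]
  refine ⟨T, fun n hn => ?_⟩
  obtain ⟨k, rfl⟩ : ∃ k, n = T + k := ⟨n - T, by omega⟩
  rw [(key k).1]
  have := hpos k
  omega

end

end Pool.Agent.Q294.Ce
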